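import Pool.Agent.Run7.h582.FM.Rcx
import Pool.Agent.Run7.h582.FM.App1
import Pool.Agent.Run7.h927.CG.Vert

/-!
# The Goldbach graphs: ALL the vertices near `lam k * x + d k` are in the bounded part, for almost every `x` with respect to every
# measure with polynomial Fourier decay

Definitions used, from the starting file `Pool.Agent.Results.MP_443e5f_co.AlmostAllVertices`: the finite Goldbach graph
`goldbach n` on `{0, 2, 4, …, 2 n}` and the finite near Goldbach graph `nearGoldbach n` on `{2, 4, …, 2 n}`.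

The starting file shows that after the removal of at most `n / log ^ U n` vertices (about which nothing is known) there are
at most `C` components, all of diameter at most `C`. Here the vertices are ALL the even integers at a distance of at most
`log ^ A (N k)` from the real numbers `lam k * x + d k`, for all large `k` at the same time, and the graphs are all those with
`N k log ^ 4 (N k) ≤ n ≤ N k log ^ r (N k)`: no such vertex is removed, for almost every `x` with respect to an ARBITRARY finite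
Borel measure `μ` with bounded support whose Fourier transform is `O (|ξ| ^ (-δ))` for some `δ > 0`. Such measures can be
singular and live on sets of an arbitrarily small positive Hausdorff dimension (for example Salem sets, images of Brownian
motion, the well approximable numbers). So the set of the `x` for which a vertex near `lam k * x + d k` is lost for infinitely
many `k` has Fourier dimension zero. The starting file `AlmostEveryRealNumber` treats the integer parts of `b ^ k x` for random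
digits and for Lebesgue-almost every `x` (there also the graphs with `n` comparable to `b ^ k`).

Method: the measure is replaced by finite families of real numbers with the same exponential sums
(`Pool.Agent.Run7.h582.FM`); the large spectrum of all the multiples of the members of such families is thin (with helper844's
files, `Pool.Agent.Run7.h844.RP`), and for such random integers almost all the vertices are in the bounded part
(`Pool.Agent.Run7.h927.CG.vertices` of helper927, which rests on helper84's `Pool.Agent.N84.MD.GB.core`).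
-/

set_option autoImplicit false
set_option maxHeartbeats 4000000

open Finset Filter MeasureTheory

namespace Pool.Agent.Results.MP_443e5f_co.FourierDecayVertices

open Pool.Agent.Results.MP_443e5f_co.AlmostAllVertices (goldbach nearGoldbach)

/-- `μ` is a finite Borel measure with bounded support and its Fourier transform `ξ ↦ ∫ exp (i ξ t) dμ (t)` is
`O (|ξ| ^ (-δ))` for some `δ > 0`. -/
def FourierDecay (μ : Measure ℝ) : Prop :=
  IsFiniteMeasure μ ∧ (∃ R : ℝ, μ (Set.Icc (-R) R)ᶜ = 0) ∧ ∃ C δ : ℝ, 0 < δ ∧ ∀ ξ : ℝ, ξ ≠ 0 →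
    ‖∫ t : ℝ, Complex.exp (((ξ * t : ℝ) : ℂ) * Complex.I) ∂μ‖ ≤ C * |ξ| ^ (-δ)

/-- `N k ≥ exp (k ^ η)`, `|d k| ≤ B N k` and `N k / log ^ T (N k) ≤ lam k ≤ B N k` for large `k`. -/
def Scales (η : ℝ) (B T : ℕ) (N : ℕ → ℕ) (lam d : ℕ → ℝ) : Prop :=
  ∀ᶠ k : ℕ in atTop, Real.exp ((k : ℝ) ^ η) ≤ N k ∧ |d k| ≤ B * N k ∧ lam k ≤ B * N k ∧
    (N k : ℝ) ≤ lam k * Real.log (N k) ^ T

/-- All the vertices of `G` with at most `n / (log n) ^ U` exceptions belong to `X`, the subgraph of `G` induced on `X` has at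
most `C` connected components, any two vertices of the same component of this subgraph are at a distance of at most `C` in it,
and every vertex of `X` has at least `c n / (log n) ^ 2` neighbours in `X`. -/
def Bounded {V : Type} (G : SimpleGraph V) (X : Set V) (C : ℕ) (c : ℝ) (U n : ℕ) : Prop :=
  (Xᶜ.ncard : ℝ) ≤ n / Real.log n ^ U ∧
    Nat.card (G.induce X).ConnectedComponent ≤ C ∧
    (∀ u v : X, (G.induce X).Reachable u v → (G.induce X).dist u v ≤ C) ∧
    ∀ u : X, c * (n / Real.log n ^ 2) ≤ (((G.induce X).neighborSet u).ncard : ℝ)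

/-- `a` is a vertex of the Goldbach graph outside `X` or a vertex of the near Goldbach graph outside `Y`. -/
def Outside (n : ℕ) (X : Set {a : ℕ // Even a ∧ a ≤ 2 * n}) (Y : Set {a : ℕ // Even a ∧ 2 ≤ a ∧ a ≤ 2 * n}) (a : ℕ) : Prop :=
  (∃ h : Even a ∧ a ≤ 2 * n, (⟨a, h⟩ : {a : ℕ // Even a ∧ a ≤ 2 * n}) ∉ X) ∨
    ∃ h : Even a ∧ 2 ≤ a ∧ a ≤ 2 * n, (⟨a, h⟩ : {a : ℕ // Even a ∧ 2 ≤ a ∧ a ≤ 2 * n}) ∉ Y

/-- There are absolute constants `C` and `c > 0` such that for every `U` there are sets `X n` of vertices of the finite Goldbach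
graph `G_n` and `Y n` of vertices of the finite near Goldbach graph `G(n)` with the following properties.

(0) For all large `n`, all but at most `n / log ^ U n` vertices belong to `X n`, the subgraph induced on `X n` has at most `C`
components, all of diameter at most `C`, and all its degrees are at least `c n / log ^ 2 n`; and the same for `Y n`.

(1) Let `μ` be a measure with `FourierDecay`, and let `Scales η B T N lam d` for some `η > 0`. For `μ`-almost every `x`, for all
`A` and `r` and all large `k`: for ALL `n` with `N k log ^ 4 (N k) ≤ n ≤ N k log ^ r (N k)`, ALL the vertices `a` with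
`|a - (lam k x + d k)| ≤ log ^ A (N k)` belong to `X n` and to `Y n`. -/
theorem result : ∃ (C : ℕ) (c : ℝ), 0 < c ∧ ∀ U : ℕ, ∃ (X : ∀ n : ℕ, Set {a : ℕ // Even a ∧ a ≤ 2 * n})
    (Y : ∀ n : ℕ, Set {a : ℕ // Even a ∧ 2 ≤ a ∧ a ≤ 2 * n}),
    (∃ n₀ : ℕ, ∀ n : ℕ, n₀ ≤ n → Bounded (goldbach n) (X n) C c U n ∧ Bounded (nearGoldbach n) (Y n) C c U n) ∧
    ∀ μ : Measure ℝ, FourierDecay μ → ∀ η : ℝ, 0 < η → ∀ (B T : ℕ) (N : ℕ → ℕ) (lam d : ℕ → ℝ), Scales η B T N lam d →
      ∀ᵐ x ∂μ, ∀ A r : ℕ, ∀ᶠ k : ℕ in atTop, ∀ n : ℕ, N k * Real.log (N k) ^ 4 ≤ n → (n : ℝ) ≤ N k * Real.log (N k) ^ r →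
        ∀ a : ℕ, |(a : ℝ) - (lam k * x + d k)| ≤ Real.log (N k) ^ A → ¬ Outside n (X n) (Y n) a := by
  classical
  obtain ⟨C, c, hc, hall⟩ := Pool.Agent.Run7.h927.CG.vertices
  refine ⟨C, c, hc, fun U => ?_⟩
  obtain ⟨X, Y, h0, h1⟩ := hall U
  refine ⟨X, Y, h0, fun μ hμ η hη B T N lam d hS => ?_⟩
  have key : ∀ A r : ℕ, ∀ᵐ x ∂μ, ∀ᶠ k : ℕ in atTop, ∀ q : ℤ, |(q : ℝ) - (lam k * x + d k)| ≤ Real.log (N k) ^ A →
      ∀ n : ℕ, N k * Real.log (N k) ^ 4 ≤ n → (n : ℝ) ≤ N k * Real.log (N k) ^ r → ∀ a : ℕ, (a : ℤ) = q →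
        ¬ Outside n (X n) (Y n) a := by
    intro A r
    refine Pool.Agent.Run7.h582.FM.ae_rcx (Θ := Unit) (fun _ _ => True)
      (fun k _ q => ∀ n : ℕ, 2 ^ k ≤ 1 * n → n ≤ k ^ r * 2 ^ k → ∀ a : ℕ, (a : ℤ) = q → ¬ Outside n (X n) (Y n) a)
      (Pool.Agent.Run7.h582.FM.rcx_of_tcls _ _ ?_)
      (fun k q => ∀ n : ℕ, N k * Real.log (N k) ^ 4 ≤ n → (n : ℝ) ≤ N k * Real.log (N k) ^ r → ∀ a : ℕ, (a : ℤ) = q →
        ¬ Outside n (X n) (Y n) a) (fun _ => ()) μ hμ η hη B T N lam d hS ?_ A
    · intro 𝓕 hF U' W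
      obtain ⟨k₀, h2⟩ := h1 2 1 𝓕 hF W 1 r 1 U'
      refine ⟨k₀, fun k hk _ _ p hp c₀ hc₀ => ?_⟩
      refine le_trans (sum_le_sum fun v _ => ?_) (h2 k hk p hp c₀ (by simpa using hc₀))
      have hp0 := hF.nonneg k p hp v
      by_cases hv : ∀ n : ℕ, 2 ^ k ≤ 1 * n → n ≤ k ^ r * 2 ^ k → ∀ a : ℕ,
          |(a : ℤ) - (c₀ + 1 * (v : ℕ))| ≤ (k : ℤ) ^ W → ¬ Pool.Agent.Run7.h927.CG.Outside n (X n) (Y n) a
      · rw [if_pos hv, if_pos]
        intro q hq n hn1 hn2 a ha
        exact hv n hn1 hn2 a (by rw [ha, one_mul]; exact hq)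
      · rw [if_neg hv]
        split_ifs
        · exact hp0
        · exact le_rfl
    · filter_upwards [(Pool.Agent.Run7.h582.FM.Sc.log hη hS).eventually_ge_atTop 216] with j hj k k1 k2 k3 k4
      have hL0 : 0 < Real.log (N j) := by linarith
      have hk0 : (0 : ℝ) < k := by linarith
      refine ⟨trivial, fun q hq n hn1 hn2 a ha => hq n ?_ ?_ a ha⟩
      · have hN0 : (0 : ℝ) ≤ N j := Nat.cast_nonneg _
        have h3 : (2 : ℝ) ^ k ≤ n := by
          calc (2 : ℝ) ^ k ≤ (k : ℝ) ^ 3 * N j := k4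
            _ ≤ (6 * Real.log (N j)) ^ 3 * N j := mul_le_mul_of_nonneg_right (pow_le_pow_left₀ hk0.le k2 3) hN0
            _ = 216 * (Real.log (N j) ^ 3 * N j) := by ring
            _ ≤ Real.log (N j) * (Real.log (N j) ^ 3 * N j) := mul_le_mul_of_nonneg_right hj (by positivity)
            _ = N j * Real.log (N j) ^ 4 := by ring
            _ ≤ n := hn1
        rw [one_mul]
        exact_mod_cast h3
      · have hN2 := Pool.Agent.Run7.h582.FM.le_two_pow (N j) k (by linarith) k3
        have hN2r : (N j : ℝ) ≤ 2 ^ k := by exact_mod_cast hN2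
        have h3 : (n : ℝ) ≤ (k : ℝ) ^ r * 2 ^ k := by
          calc (n : ℝ) ≤ N j * Real.log (N j) ^ r := hn2
            _ ≤ 2 ^ k * (k : ℝ) ^ r := mul_le_mul hN2r (pow_le_pow_left₀ hL0.le k1 r) (by positivity) (by positivity)
            _ = (k : ℝ) ^ r * 2 ^ k := mul_comm _ _
        exact_mod_cast h3
  simp only [← ae_all_iff] at key
  filter_upwards [key] with x hx A r
  filter_upwards [hx A r] with k hk n hn1 hn2 a ha
  exact hk (a : ℤ) (by push_cast; exact ha) n hn1 hn2 a rfl

end Pool.Agent.Results.MP_443e5f_co.FourierDecayVertices
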