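import Pool.Agent.N469.GG.Deg
import Pool.Agent.Run7.h844.RP.Pair1
import Pool.Agent.Results.MP_443e5f_co.AlmostAllVertices

/-!
# The Goldbach graphs: all the vertices near almost all the values of generalised polynomials at primes are in the bounded part

Definitions used, from the starting file `Pool.Agent.Results.MP_443e5f_co.AlmostAllVertices`: the finite Goldbach graph
`goldbach n` on `{0, 2, 4, …, 2 n}` and the finite near Goldbach graph `nearGoldbach n` on `{2, 4, …, 2 n}`.

The starting file shows that after the removal of at most `n / log ^ U n` vertices there are at most `C` components, all of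
diameter at most `C`. The vertices of large degree are added to the bounded part as in the starting files `SmoothVertices` and
`NonIntegralOrderVertices`; the new part is that almost all the vertices in very thin families (the neighbours of the values
of generalised polynomials at primes) have a large degree. The degree is the number of the representations of the vertex as
a sum or as a difference of two primes.

Method: exponential sums over primes with the phase of a generalised polynomial: derivative bounds uniform in the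
coefficients, van der Corput differencing of all orders, bilinear sums, Vaughan's identity (after `Pool.Agent.H895R3.NK`,
`Pool.Agent.H373R2.T7`); a discrete Fejér kernel for the passage from real numbers to their integer parts, and a kernel
estimate for the concentration on short intervals which needs only the large frequencies (library
`Pool.Agent.Run7.h844.RP`, after `Pool.Agent.N384.MQ`, `Pool.Agent.N193.PS`).
-/

set_option autoImplicit false

namespace Pool.Agent.Results.MP_443e5f_co.ValuesAtPrimes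

open Finset Filter
open Pool.Agent.Results.MP_443e5f_co.AlmostAllVertices (goldbach nearGoldbach)

/-- The generalised polynomial `∑ a x * t ^ x`, `x ∈ F`, with real exponents and coefficients. -/
noncomputable def genPoly (F : Finset ℝ) (a : ℝ → ℝ) (t : ℝ) : ℝ := ∑ x ∈ F, a x * t ^ x

/-- `c` is the largest exponent; it is positive and not an integer, and its coefficient is not zero. -/
def Leading (F : Finset ℝ) (a : ℝ → ℝ) (c : ℝ) : Prop :=
  c ∈ F ∧ (∀ x ∈ F, x ≤ c) ∧ 0 < c ∧ (∀ m : ℕ, c ≠ m) ∧ a c ≠ 0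

/-- All the vertices of `G` with at most `n / (log n) ^ U` exceptions belong to `X`, the subgraph of `G` induced on `X` has at
most `C` connected components, any two vertices of the same component of this subgraph are at a distance of at most `C` in it,
and every vertex of `X` has at least `c n / (log n) ^ 2` neighbours in `X`. -/
def Bounded {V : Type} (G : SimpleGraph V) (X : Set V) (C : ℕ) (c : ℝ) (U n : ℕ) : Prop :=
  (Xᶜ.ncard : ℝ) ≤ n / Real.log n ^ U ∧
    Nat.card (G.induce X).ConnectedComponent ≤ C ∧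
    (∀ u v : X, (G.induce X).Reachable u v → (G.induce X).dist u v ≤ C) ∧
    ∀ u : X, c * (n / Real.log n ^ 2) ≤ (((G.induce X).neighborSet u).ncard : ℝ)

/-- `a` is a vertex of the Goldbach graph outside `X` or a vertex of the near Goldbach graph outside `Y`. -/
def Outside (n : ℕ) (X : Set {a : ℕ // Even a ∧ a ≤ 2 * n}) (Y : Set {a : ℕ // Even a ∧ 2 ≤ a ∧ a ≤ 2 * n}) (a : ℕ) : Prop :=
  (∃ h : Even a ∧ a ≤ 2 * n, (⟨a, h⟩ : {a : ℕ // Even a ∧ a ≤ 2 * n}) ∉ X) ∨
    ∃ h : Even a ∧ 2 ≤ a ∧ a ≤ 2 * n, (⟨a, h⟩ : {a : ℕ // Even a ∧ 2 ≤ a ∧ a ≤ 2 * n}) ∉ Y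

/-- Some vertex at a distance of at most `R` from `y` is outside `X` or outside `Y`. -/
def Bad (n : ℕ) (X : Set {a : ℕ // Even a ∧ a ≤ 2 * n}) (Y : Set {a : ℕ // Even a ∧ 2 ≤ a ∧ a ≤ 2 * n}) (R y : ℝ) : Prop :=
  ∃ a : ℕ, |(a : ℝ) - y| ≤ R ∧ Outside n X Y a

open Classical in
/-- There are absolute constants `C` and `c₀ > 0` such that for every `U` there are sets `V n` of vertices of the finite
Goldbach graph `G_n` and `W n` of vertices of the finite near Goldbach graph `G(n)` with the following properties.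

(0) For all large `n`, all but at most `n / log ^ U n` vertices belong to `V n`, the subgraph induced on `V n` has at most `C`
components, all of diameter at most `C`, and all its degrees are at least `c₀ n / log ^ 2 n`; and the same for `W n`.

(1) Let `f` be a generalised polynomial whose largest exponent `c` is positive and not an integer, and let `A`, `D` and `r` be
fixed. Let `X` be large, let `X ^ c ≤ n ≤ X ^ c log ^ r n`, and let `z` be any real number with `|z| ≤ X ^ c`. Then all the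
primes `X < p ≤ 2 X`, with at most `X / log ^ D X` exceptions, are such that ALL the vertices `a` with
`|a - (f(p) + z)| ≤ log ^ A X` belong to `V n` and to `W n`. -/
theorem result : ∃ (C : ℕ) (c₀ : ℝ), 0 < c₀ ∧ ∀ U : ℕ, ∃ (V : ∀ n : ℕ, Set {a : ℕ // Even a ∧ a ≤ 2 * n})
    (W : ∀ n : ℕ, Set {a : ℕ // Even a ∧ 2 ≤ a ∧ a ≤ 2 * n}),
    (∃ n₀ : ℕ, ∀ n : ℕ, n₀ ≤ n → Bounded (goldbach n) (V n) C c₀ U n ∧ Bounded (nearGoldbach n) (W n) C c₀ U n) ∧
    ∀ (F : Finset ℝ) (a : ℝ → ℝ) (c : ℝ), Leading F a c → ∀ A D r : ℕ,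
      ∃ X₀ : ℕ, ∀ X : ℕ, X₀ ≤ X → ∀ n : ℕ, (X : ℝ) ^ c ≤ n → (n : ℝ) ≤ (X : ℝ) ^ c * Real.log n ^ r →
      ∀ z : ℝ, |z| ≤ (X : ℝ) ^ c →
        (((Ioc X (2 * X)).filter fun p : ℕ => p.Prime ∧
          Bad n (V n) (W n) (Real.log X ^ A) (genPoly F a p + z)).card : ℝ) ≤ X / Real.log X ^ D := by
  obtain ⟨C, c, hc, hall⟩ := Pool.Agent.Results.MP_443e5f_co.AlmostAllVertices.result
  obtain ⟨c₁, hc₁, n₁, hdeg⟩ := Pool.Agent.N469.GG.deg_low
  refine ⟨C * (C + 3) + C, min c (c₁ / 2), lt_min hc (by positivity), fun U => ?_⟩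
  obtain ⟨n₂, h2⟩ := hall (U + 3)
  obtain ⟨n₃, h3⟩ := Pool.Agent.H373R2.T7.ev_L' (2 / c₁ + 1)
  have hex : ∀ n : ℕ, ∃ (X : Set {a : ℕ // Even a ∧ a ≤ 2 * n}) (Y : Set {a : ℕ // Even a ∧ 2 ≤ a ∧ a ≤ 2 * n}),
      n₁ + n₂ + n₃ + 2 ≤ n → (Bounded (goldbach n) X (C * (C + 3) + C) (min c (c₁ / 2)) U n ∧
        Bounded (nearGoldbach n) Y (C * (C + 3) + C) (min c (c₁ / 2)) U n) ∧
        (∀ a, c₁ * (n / Real.log n ^ 2) ≤ (((goldbach n).neighborSet a).ncard : ℝ) → a ∈ X) ∧
        (∀ a, c₁ * (n / Real.log n ^ 2) ≤ (((nearGoldbach n).neighborSet a).ncard : ℝ) → a ∈ Y) := by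
    intro n
    by_cases hn : n₁ + n₂ + n₃ + 2 ≤ n
    · obtain ⟨q1, q2⟩ := h2 n (by omega)
      have a3 := h3 n (by omega)
      have hn0 : (0 : ℝ) < n := by exact_mod_cast (by omega : 0 < n)
      have hL1 : 1 ≤ Real.log (n : ℝ) := by
        have : 0 < 2 / c₁ := by positivity
        linarith
      have hL0 : 0 < Real.log (n : ℝ) := by linarith
      have hpos : 0 < (n : ℝ) / Real.log n ^ 2 := by positivity
      have hlarge : (n : ℝ) / Real.log n ^ (U + 3) ≤ c₁ / 2 * (n / Real.log n ^ 2) := by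
        have e1 : (n : ℝ) / Real.log n ^ (U + 3) = (1 / Real.log n ^ (U + 1)) * (n / Real.log n ^ 2) := by
          rw [show U + 3 = (U + 1) + 2 by ring, pow_add _ (U + 1) 2]
          field_simp
        rw [e1]
        apply mul_le_mul_of_nonneg_right _ hpos.le
        rw [div_le_iff₀ (by positivity)]
        have e2 : Real.log (n : ℝ) ≤ Real.log n ^ (U + 1) := le_self_pow₀ hL1 (by omega)
        have e3 : 2 / c₁ ≤ Real.log (n : ℝ) := by linarith
        rw [div_le_iff₀ hc₁] at e3
        nlinarith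
      obtain ⟨X, ⟨x1, x2, x3, x4⟩, x5⟩ := Pool.Agent.N469.GG.absorb (goldbach n) C c c₁ (U + 3) n q1 hc₁ hpos hlarge
      obtain ⟨Y, ⟨y1, y2, y3, y4⟩, y5⟩ := Pool.Agent.N469.GG.absorb (nearGoldbach n) C c c₁ (U + 3) n q2 hc₁ hpos hlarge
      have hU : (n : ℝ) / Real.log n ^ (U + 3) ≤ n / Real.log n ^ U :=
        div_le_div_of_nonneg_left hn0.le (by positivity) (pow_le_pow_right₀ hL1 (by omega))
      exact ⟨X, Y, fun _ => ⟨⟨⟨x1.trans hU, x2, x3, x4⟩, ⟨y1.trans hU, y2, y3, y4⟩⟩, x5, y5⟩⟩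
    · exact ⟨Set.univ, Set.univ, fun h => absurd h hn⟩
  choose V W hVW using hex
  refine ⟨V, W, ⟨n₁ + n₂ + n₃ + 2, fun n hn => (hVW n hn).1⟩, fun F a c' hF A D r => ?_⟩
  obtain ⟨ht1, ht2, ht3, ht4, ht5⟩ := hF
  obtain ⟨B, hB⟩ : ∃ B : ℕ, B = D + A + 2 := ⟨_, rfl⟩
  obtain ⟨X₁, hX₁⟩ := Pool.Agent.Run7.h844.RP.pair_primes F c' ht1 ht4 ht3 ht2 a ht5 r (A + 1) (D + 2) (1 / 2) (by norm_num)
  obtain ⟨X₂, hX₂⟩ := Pool.Agent.Run7.h844.RP.gold_primes F c' ht1 ht4 ht3 ht2 a ht5 1 A (D + 1) 0 (1 / 2) (by norm_num)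
    (fun m => Pool.Agent.W93.PG.WinP (1 / 2) 1 m) (fun m _ _ h => h)
  -- the logarithms
  have hlogT := Real.tendsto_log_atTop.comp (tendsto_natCast_atTop_atTop (R := ℝ))
  obtain ⟨X₃, hX₃⟩ := eventually_atTop.mp ((hlogT.eventually_ge_atTop 2).and
    (((tendsto_rpow_atTop ht3).comp (tendsto_natCast_atTop_atTop (R := ℝ))).eventually_ge_atTop
      (((n₁ + n₂ + n₃ + 4 : ℕ) : ℝ) + Real.exp ((1 / c') ^ (D + 1) + (1 / c') ^ A + 1))))
  refine ⟨X₁ + X₂ + X₃ + 3, fun X hX n hn1 hn2 z hz => ?_⟩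
  obtain ⟨hl1, hl2⟩ := hX₃ X (by omega)
  simp only [Function.comp] at hl1 hl2
  have hl3 := hl2.trans hn1
  have hexp := Real.exp_pos ((1 / c') ^ (D + 1) + (1 / c') ^ A + 1)
  have hnn : n₁ + n₂ + n₃ + 4 ≤ n := by
    have : ((n₁ + n₂ + n₃ + 4 : ℕ) : ℝ) ≤ n := by linarith
    exact_mod_cast this
  have hln : (1 / c') ^ (D + 1) + (1 / c') ^ A + 1 ≤ Real.log n := by
    have h5 : Real.exp ((1 / c') ^ (D + 1) + (1 / c') ^ A + 1) ≤ n := by
      have : (0 : ℝ) ≤ ((n₁ + n₂ + n₃ + 4 : ℕ) : ℝ) := Nat.cast_nonneg _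
      linarith
    have h6 := Real.log_le_log hexp h5
    rwa [Real.log_exp] at h6
  obtain ⟨-, hXX, hYY⟩ := hVW n (by omega)
  obtain ⟨d0, d1, d2⟩ := hdeg n (by omega)
  have hX0 : (0 : ℝ) < X := by exact_mod_cast (by omega : 0 < X)
  have hi0 : 0 < 1 / c' := by positivity
  have hp1 : 0 < (1 / c') ^ (D + 1) := by positivity
  have hp2 : 0 < (1 / c') ^ A := by positivity
  have hL2 : 2 ≤ Real.log X := hl1
  have hL0 : 0 < Real.log X := by linarith
  have hXc : 0 < (X : ℝ) ^ c' := by positivity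
  have hlog : Real.log X ≤ 1 / c' * Real.log n := by
    have h5 := Real.log_le_log hXc hn1
    rw [Real.log_rpow hX0] at h5
    calc Real.log X = 1 / c' * (c' * Real.log X) := by field_simp
      _ ≤ _ := mul_le_mul_of_nonneg_left h5 hi0.le
  have hLn0 : 0 < Real.log n := by linarith
  -- the radius
  have hrad : Real.log X ^ A ≤ Real.log n ^ (A + 1) := by
    calc Real.log X ^ A ≤ (1 / c' * Real.log n) ^ A := pow_le_pow_left₀ hL0.le hlog A
      _ = (1 / c') ^ A * Real.log n ^ A := mul_pow _ _ _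
      _ ≤ Real.log n * Real.log n ^ A := mul_le_mul_of_nonneg_right (by linarith) (by positivity)
      _ = _ := (pow_succ' _ _).symm
  have hfin : (X : ℝ) / Real.log n ^ (D + 2) ≤ X / Real.log X ^ (D + 1) := by
    apply div_le_div_of_nonneg_left hX0.le (by positivity)
    calc Real.log X ^ (D + 1) ≤ (1 / c' * Real.log n) ^ (D + 1) := pow_le_pow_left₀ hL0.le hlog _
      _ = (1 / c') ^ (D + 1) * Real.log n ^ (D + 1) := mul_pow _ _ _
      _ ≤ Real.log n * Real.log n ^ (D + 1) := mul_le_mul_of_nonneg_right (by linarith) (by positivity)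
      _ = Real.log n ^ (D + 2) := (pow_succ' _ _).symm
  have u1 := hX₁ X (by omega) n hn1 hn2 (n / 2) (by omega) (by omega) z hz
  have u2 := hX₂ X (by omega) z hz
  refine le_trans (b := (X / Real.log X ^ (D + 1) + X / Real.log X ^ (D + 1) : ℝ)) ?_ ?_
  · refine le_trans ?_ (add_le_add (u1.trans hfin) u2)
    rw [← Nat.cast_add]
    apply Nat.cast_le.2
    refine le_trans (card_le_card ?_) (card_union_le _ _)
    intro p hp
    rw [mem_filter] at hp
    obtain ⟨hp1, hpp, a', ha1, ha2⟩ := hp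
    rw [mem_union, mem_filter, mem_filter]
    -- the vertex `a'` has a small degree
    have hsmall : Even a' ∧ a' ≤ 2 * n ∧ ((Pool.Agent.N469.GG.Nb n a').card : ℝ) < c₁ * (n / Real.log n ^ 2) := by
      rcases ha2 with ⟨h, ha⟩ | ⟨h, ha⟩
      · refine ⟨h.1, h.2, ?_⟩
        by_contra hcon
        push Not at hcon
        refine ha (hXX _ (hcon.trans ?_))
        exact_mod_cast Pool.Agent.N469.GG.nb_gold n a' h
      · refine ⟨h.1, h.2.2, ?_⟩
        by_contra hcon
        push Not at hcon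
        refine ha (hYY _ (hcon.trans ?_))
        exact_mod_cast Pool.Agent.N469.GG.nb_near n a' h
    obtain ⟨hev, hle, hlt⟩ := hsmall
    rcases Nat.eq_zero_or_pos a' with h0 | h0
    · exfalso
      rw [h0] at hlt
      linarith
    rcases le_or_gt a' n with h5 | h5
    · left
      refine ⟨hp1, hpp, fun hcon => ?_⟩
      have h6 := hcon a' h0 (ha1.trans hrad)
      obtain ⟨k, hk⟩ := hev
      have := d1 _ a' ⟨k, hk⟩ (by omega) h5 h6
      linarith
    · right
      refine ⟨hp1, hpp, fun hcon => ?_⟩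
      have h6 := hcon a' h0 ha1 hev
      have := d2 a' hev h5 hle h6
      linarith
  · rw [← add_div, div_le_div_iff₀ (by positivity) (by positivity), pow_succ]
    have h1 : 0 < Real.log X ^ D := by positivity
    nlinarith [mul_pos hX0 h1]

end Pool.Agent.Results.MP_443e5f_co.ValuesAtPrimes
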