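import Pool.Agent.Run7.h927.CG.Mono
import Pool.Agent.Run7.h927.CG.Vert

/-!
# The Goldbach graphs: the vertices near almost all integers whose digits label walks in a graph are in the bounded part

Definitions used, from the starting file `Pool.Agent.Results.MP_443e5f_co.AlmostAllVertices`: the finite Goldbach graph
`goldbach n` on `{0, 2, 4, …, 2 n}` and the finite near Goldbach graph `nearGoldbach n` on `{2, 4, …, 2 n}`.

The starting file shows that after the removal of at most `n / log ^ U n` vertices (about which nothing is known) there are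
at most `C` components, all of diameter at most `C`. Here almost all the vertices in very thin families belong to this
bounded part.
The random integers are those whose digits are the labels of a walk between two vertices of a graph, for example of the
Cayley graph of a group: then these are the integers whose digits spell a given element of the group. Such a set can
contain as few as `N ^ ε` integers below `N`, and in general it is not automatic.

Method: the exponential sum over the walks is dominated by the iterates of the adjacency operator of the graph, whose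
square is diminished on the diagonal at the places where the frequency has a digit which is not extremal; the norms of
these operators on the cyclic space of a vertex are controlled by the number of the closed walks (starting files,
`Pool.Agent.N625.GW`, helper625); in the form needed here (large spectrum): `Pool.Agent.Run7.h927.CG`. As in helper469's file `SmoothVertices` all the vertices of large degree are added to the bounded part; the degree is the
number of the representations of a vertex as a sum or a difference of two primes. The argument is that of helper84's file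
`AlmostEveryRealNumber` (`Pool.Agent.N84.MD.GB.core`).
-/

set_option autoImplicit false

open Finset

namespace Pool.Agent.Results.MP_443e5f_co.WalkVertices

open Pool.Agent.Results.MP_443e5f_co.AlmostAllVertices (goldbach nearGoldbach)

/-- The digits `a < b` act on the set `X` of the vertices: an edge with the label `a` leads from `x` to `y` if
`δ x a = some y` (at most one edge with the label `a` starts at `x`). The number of the edges from `x` to `y` equals the
number of the edges from `y` to `x`, and at least two edges start at every vertex. The graph may be infinite. -/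
structure Graph {X : Type} (b : ℕ) (δ : X → ℕ → Option X) : Prop where
  symm : ∀ x y : X, {a : ℕ | a < b ∧ δ x a = some y}.ncard = {a : ℕ | a < b ∧ δ y a = some x}.ncard
  two : ∀ x : X, ∃ a a' : ℕ, a < a' ∧ a' < b ∧ (δ x a).isSome ∧ (δ x a').isSome

open Classical in
/-- The integers `v < b ^ k` whose `k` digits in base `b`, from the most significant to the least significant one (the
digit number `i`, `0 ≤ i < k`, from the left is `v / b ^ (k - 1 - i) % b`), are the labels of a walk from `x` to `y`. -/
noncomputable def walks {X : Type} (b : ℕ) (δ : X → ℕ → Option X) (k : ℕ) (x y : X) : Finset ℕ :=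
  (range (b ^ k)).filter fun v =>
    ((List.range k).map fun i => v / b ^ (k - 1 - i) % b).foldl (fun s a => s.bind fun z => δ z a) (some x) = some y

/-- All the vertices of `G` with at most `n / (log n) ^ U` exceptions belong to `X`, the subgraph of `G` induced on `X` has at
most `C` connected components, any two vertices of the same component of this subgraph are at a distance of at most `C` in it,
and every vertex of `X` has at least `c n / (log n) ^ 2` neighbours in `X`. -/
def Bounded {V : Type} (G : SimpleGraph V) (X : Set V) (C : ℕ) (c : ℝ) (U n : ℕ) : Prop :=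
  (Xᶜ.ncard : ℝ) ≤ n / Real.log n ^ U ∧
    Nat.card (G.induce X).ConnectedComponent ≤ C ∧
    (∀ u v : X, (G.induce X).Reachable u v → (G.induce X).dist u v ≤ C) ∧
    ∀ u : X, c * (n / Real.log n ^ 2) ≤ (((G.induce X).neighborSet u).ncard : ℝ)

/-- `a` is a vertex of the Goldbach graph outside `X` or a vertex of the near Goldbach graph outside `Y`. -/
def Outside (n : ℕ) (X : Set {a : ℕ // Even a ∧ a ≤ 2 * n}) (Y : Set {a : ℕ // Even a ∧ 2 ≤ a ∧ a ≤ 2 * n}) (a : ℕ) : Prop :=
  (∃ h : Even a ∧ a ≤ 2 * n, (⟨a, h⟩ : {a : ℕ // Even a ∧ a ≤ 2 * n}) ∉ X) ∨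
    ∃ h : Even a ∧ 2 ≤ a ∧ a ≤ 2 * n, (⟨a, h⟩ : {a : ℕ // Even a ∧ 2 ≤ a ∧ a ≤ 2 * n}) ∉ Y

open Classical in
/-- There are absolute constants `C` and `c > 0` such that for every `U` there are sets `X n` of vertices of the finite Goldbach
graph `G_n` and `Y n` of vertices of the finite near Goldbach graph `G(n)` with the following properties.

(0) For all large `n`, all but at most `n / log ^ U n` vertices belong to `X n`, the subgraph induced on `X n` has at most `C`
components, all of diameter at most `C`, and all its degrees are at least `c n / log ^ 2 n`; and the same for `Y n`.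

(1) Let `δ` be a graph as in `Graph b δ`, let `x₀` be a vertex such that the number of the closed walks of length `2n` at `x₀` is
at most `ρ ^ (2n)` for all `n`, and let `κ ≠ 0`, `A`, `B`, `D`, `r`, `s`, `W` be fixed. Let `k` be large, let `y` be any vertex
such that there are at least `ρ ^ k / k ^ D` walks of length `k` from `x₀` to `y`, and let `c₀` be an arbitrary integer with
`|c₀| ≤ B b ^ k`. Then all the integers `v` whose `k` digits are the labels of a walk from `x₀` to `y`, with the exception of a
proportion of at most `1 / k ^ W` of them, have the following property: for ALL `n` with `b ^ k / s ≤ n ≤ k ^ r b ^ k`, ALL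
the vertices `a` with `|a - (c₀ + κ v)| ≤ k ^ A` belong to `X n` and to `Y n`.

(For a group of polynomial growth, a free group, or any group with the property of rapid decay, there are at least
`ρ ^ k / k ^ D` closed walks of every even length `k` in the Cayley graph, where `ρ` is its spectral radius.) -/
theorem result : ∃ (C : ℕ) (c : ℝ), 0 < c ∧ ∀ U : ℕ, ∃ (X : ∀ n : ℕ, Set {a : ℕ // Even a ∧ a ≤ 2 * n})
    (Y : ∀ n : ℕ, Set {a : ℕ // Even a ∧ 2 ≤ a ∧ a ≤ 2 * n}),
    (∃ n₀ : ℕ, ∀ n : ℕ, n₀ ≤ n → Bounded (goldbach n) (X n) C c U n ∧ Bounded (nearGoldbach n) (Y n) C c U n) ∧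
    ∀ {V : Type} (b : ℕ) (δ : V → ℕ → Option V), Graph b δ → ∀ (x₀ : V) (ρ : ℝ), 0 < ρ →
      (∀ n : ℕ, ((walks b δ (2 * n) x₀ x₀).card : ℝ) ≤ ρ ^ (2 * n)) → ∀ κ : ℤ, κ ≠ 0 → ∀ A B D r s W : ℕ,
      ∃ k₀ : ℕ, ∀ k : ℕ, k₀ ≤ k → ∀ y : V, ρ ^ k / (k : ℝ) ^ D ≤ (walks b δ k x₀ y).card →
        ∀ c₀ : ℤ, |c₀| ≤ B * (b : ℤ) ^ k →
        (((walks b δ k x₀ y).filter fun v => ¬ ∀ n : ℕ, b ^ k ≤ s * n → n ≤ k ^ r * b ^ k → ∀ a : ℕ,
          |(a : ℤ) - (c₀ + κ * (v : ℕ))| ≤ (k : ℤ) ^ A → ¬ Outside n (X n) (Y n) a).card : ℝ) ≤
          (walks b δ k x₀ y).card / (k : ℝ) ^ W := by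
  obtain ⟨C, c, hc, hall⟩ := Pool.Agent.Run7.h927.CG.vertices
  refine ⟨C, c, hc, fun U => ?_⟩
  obtain ⟨X, Y, h0, h1⟩ := hall U
  refine ⟨X, Y, h0, ?_⟩
  intro V b δ hG x₀ ρ hρ hR κ hκ A B D r s W
  obtain ⟨k₀, h2⟩ := h1 b κ _ (Pool.Agent.Run7.h927.CG.tcls
    (Pool.Agent.Run7.h927.CG.w_good (δ := δ) ⟨hG.symm, hG.two⟩ x₀ ρ hρ hR D) κ hκ) A B r s W
  refine ⟨k₀ + 1, fun k hk y hy c₀ hc₀ => ?_⟩
  have hk1 : (0 : ℝ) < (k : ℝ) ^ D := by
    have : (0 : ℝ) < k := by exact_mod_cast (by omega : 0 < k)
    positivity
  have hy' : ρ ^ k ≤ (k : ℝ) ^ D * (walks b δ k x₀ y).card := by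
    rw [div_le_iff₀ hk1, mul_comm] at hy
    exact hy
  have h3 := Pool.Agent.N625.GW.w_count k x₀ y ρ hρ D hy'
    (fun v => ∀ n : ℕ, b ^ k ≤ s * n → n ≤ k ^ r * b ^ k → ∀ a : ℕ,
          |(a : ℤ) - (c₀ + κ * (v : ℕ))| ≤ (k : ℤ) ^ A → ¬ Outside n (X n) (Y n) a)
    (1 / (k : ℝ) ^ W) (fun p hp => h2 k (by omega) p hp c₀ hc₀)
  rw [mul_one_div] at h3
  exact h3

end Pool.Agent.Results.MP_443e5f_co.WalkVertices
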